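import Pool.Agent.W810.SYN.Stm

set_option autoImplicit false

namespace Pool.Agent.W671.SYN.LC

open MeasureTheory AddCircle Filter Topology Pool.Agent.Results.MP_535799_an.NonSidon Pool.Agent.W810.SYN

lemma pw (N₁ : ℕ) (s : ℝ) (hs : s < 1 / ((N₁ : ℝ) + 1)) (N₂ : ℕ) (hN : N₁ ≤ N₂)
    (h2 : 1 / ((N₂ : ℝ) + 1) ≤ s) :
    1 / s ≤ ((N₁ : ℝ) + 1) + ∑ N ∈ Finset.Ico N₁ N₂, (if s < 1 / ((N : ℝ) + 1) then (1 : ℝ) else 0) := by
  induction N₂, hN using Nat.le_induction with
  | base => exact absurd h2 (not_le.2 hs)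
  | succ m hm ih =>
    rw [Finset.sum_Ico_succ_top hm]
    by_cases h3 : s < 1 / ((m : ℝ) + 1)
    · have h4 : ∑ N ∈ Finset.Ico N₁ m, (if s < 1 / ((N : ℝ) + 1) then (1 : ℝ) else 0)
          = ∑ N ∈ Finset.Ico N₁ m, (1 : ℝ) := by
        refine Finset.sum_congr rfl fun N hNm => ?_
        rw [Finset.mem_Ico] at hNm
        have h5 : 1 / ((m : ℝ) + 1) ≤ 1 / ((N : ℝ) + 1) := by
          apply one_div_le_one_div_of_le (by positivity)
          have : (N : ℝ) ≤ m := by exact_mod_cast hNm.2.le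
          linarith
        rw [if_pos (lt_of_lt_of_le h3 h5)]
      rw [h4, if_pos h3, Finset.sum_const, Nat.card_Ico, nsmul_eq_mul, mul_one, Nat.cast_sub hm]
      have h6 : (0 : ℝ) < 1 / (((m + 1 : ℕ) : ℝ) + 1) := by positivity
      have h7 := one_div_le_one_div_of_le h6 h2
      rw [one_div_one_div] at h7
      push_cast at h7
      linarith
    · rw [if_neg h3, add_zero]
      exact ih (not_lt.1 h3)

theorem main (h : S_MEAS) : S_LC := by
  intro N₁ N₂ hN
  have hsd : Continuous sd := by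
    unfold sd
    exact (continuous_const.sub (fourier 1).continuous).norm
  have hmeas : ∀ δ : ℝ, MeasurableSet {x | sd x < δ} := fun δ =>
    measurableSet_lt hsd.measurable measurable_const
  have hR : MeasurableSet {x | 1 / ((N₂ : ℝ) + 1) ≤ sd x ∧ sd x < 1 / ((N₁ : ℝ) + 1)} :=
    (measurableSet_le measurable_const hsd.measurable).inter (hmeas _)
  have hint : ∀ δ : ℝ, Integrable (Set.indicator {x | sd x < δ} (fun _ => (1 : ℝ))) mu := fun δ =>
    (integrable_const 1).indicator (hmeas δ)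
  have hval : ∀ δ : ℝ, 0 ≤ δ → ∫ x, Set.indicator {x | sd x < δ} (fun _ => (1 : ℝ)) x ∂mu ≤ δ := by
    intro δ hδ
    rw [integral_indicator (hmeas δ)]
    simpa using h δ hδ
  rw [← integral_indicator hR]
  have hF : Integrable (fun x => ((N₁ : ℝ) + 1) *
      Set.indicator {x | sd x < 1 / ((N₁ : ℝ) + 1)} (fun _ => (1 : ℝ)) x +
      ∑ N ∈ Finset.Ico N₁ N₂, Set.indicator {x | sd x < 1 / ((N : ℝ) + 1)} (fun _ => (1 : ℝ)) x) mu :=
    ((hint _).const_mul _).add (integrable_finsetSum _ fun N _ => hint _)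
  have h1 : ∫ x, Set.indicator {x | 1 / ((N₂ : ℝ) + 1) ≤ sd x ∧ sd x < 1 / ((N₁ : ℝ) + 1)}
      (fun x => 1 / sd x) x ∂mu ≤ ∫ x, (((N₁ : ℝ) + 1) *
      Set.indicator {x | sd x < 1 / ((N₁ : ℝ) + 1)} (fun _ => (1 : ℝ)) x +
      ∑ N ∈ Finset.Ico N₁ N₂, Set.indicator {x | sd x < 1 / ((N : ℝ) + 1)} (fun _ => (1 : ℝ)) x) ∂mu := by
    refine integral_mono_of_nonneg (Eventually.of_forall fun x => ?_) hF (Eventually.of_forall fun x => ?_)
    · refine Set.indicator_nonneg (fun y _ => ?_) x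
      have : 0 ≤ sd y := norm_nonneg _
      positivity
    · by_cases hx : x ∈ {x | 1 / ((N₂ : ℝ) + 1) ≤ sd x ∧ sd x < 1 / ((N₁ : ℝ) + 1)}
      · have h3 := pw N₁ (sd x) hx.2 N₂ hN hx.1
        simp only [Set.indicator_of_mem hx]
        have h4 : Set.indicator {x | sd x < 1 / ((N₁ : ℝ) + 1)} (fun _ => (1 : ℝ)) x = 1 :=
          Set.indicator_of_mem (by exact hx.2) _
        rw [h4, mul_one]
        refine h3.trans (le_of_eq ?_)
        congr 1
      · simp only [Set.indicator_of_notMem hx]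
        have h5 : ∀ δ : ℝ, 0 ≤ Set.indicator {x | sd x < δ} (fun _ => (1 : ℝ)) x := fun δ =>
          Set.indicator_nonneg (fun _ _ => zero_le_one) x
        have h6 := Finset.sum_nonneg (s := Finset.Ico N₁ N₂)
          (f := fun N : ℕ => Set.indicator {x | sd x < 1 / ((N : ℝ) + 1)} (fun _ => (1 : ℝ)) x)
          (fun N _ => h5 _)
        have h7 : 0 ≤ ((N₁ : ℝ) + 1) *
            Set.indicator {x | sd x < 1 / ((N₁ : ℝ) + 1)} (fun _ => (1 : ℝ)) x :=
          mul_nonneg (by positivity) (h5 _)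
        exact add_nonneg h7 h6
  refine h1.trans ?_
  rw [integral_add ((hint _).const_mul _) (integrable_finsetSum _ fun N _ => hint _),
    integral_const_mul, integral_finsetSum _ (fun N _ => hint _)]
  refine add_le_add ?_ (Finset.sum_le_sum fun N _ => hval _ (by positivity))
  have h8 := mul_le_mul_of_nonneg_left (hval (1 / ((N₁ : ℝ) + 1)) (by positivity))
    (show (0 : ℝ) ≤ (N₁ : ℝ) + 1 by positivity)
  refine h8.trans (le_of_eq ?_)
  field_simp

end Pool.Agent.W671.SYN.LC
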